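import Pool.Agent.H95.ESL.Stmts

/-!
Row FIN of the board esl: the assembly.
-/

set_option autoImplicit false

namespace ESL
open Finset ESP

theorem FIN_pts (a b : ℤ) (p : ℕ) : pts a b p = aff (a : ZMod p) (b : ZMod p) + 1 := rfl

theorem FIN_Rpos (a b : ℤ) : 1 ≤ R a b := by
  unfold R
  refine Nat.one_le_iff_ne_zero.2 (Finset.prod_ne_zero_iff.2 fun q hq => ?_)
  have h := (Finset.mem_filter.1 hq).2
  omega

theorem FIN_notdvd {D : ℤ} (hD : D ≠ 0) {q : ℕ} (h : D.natAbs < q) : ¬ (q : ℤ) ∣ D := by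
  intro hd
  have h1 : q ∣ D.natAbs := by
    have := Int.natAbs_dvd_natAbs.2 hd
    simpa using this
  have h2 := Nat.le_of_dvd (Int.natAbs_pos.2 hD) h1
  omega

theorem FIN_mod {q₁ q₂ : ℕ} (h1 : q₁.Prime) (h5 : 5 < q₁) (h : q₁ % 24 = q₂ % 24) :
    (q₁ * q₂) % 24 = 1 := by
  have h2 : q₁ % 2 ≠ 0 := by
    intro h0
    have := (Nat.prime_dvd_prime_iff_eq Nat.prime_two h1).1 (Nat.dvd_of_mod_eq_zero h0)
    omega
  have h3 : q₁ % 3 ≠ 0 := by
    intro h0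
    have := (Nat.prime_dvd_prime_iff_eq Nat.prime_three h1).1 (Nat.dvd_of_mod_eq_zero h0)
    omega
  rw [Nat.mul_mod, ← h]
  have hr : q₁ % 24 < 24 := Nat.mod_lt _ (by norm_num)
  have h2' : (q₁ % 24) % 2 ≠ 0 := by omega
  have h3' : (q₁ % 24) % 3 ≠ 0 := by omega
  generalize q₁ % 24 = r at hr h2' h3'
  interval_cases r <;> simp_all

theorem fin_thm (hTWS : S_TWS) (hTWN : S_TWN) (hNZ : S_NZ) (hQRP : S_QRP) (hPIG : S_PIG)
    (hCON : S_CON) (hMDL : S_MDL) : S_FIN := by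
  intro a b hab c hc B
  have hlog2 : 0 < Real.log 2 := Real.log_pos (by norm_num)
  set c' : ℝ := max c (1 / (8 * Real.log 2)) with hc'
  have hc'0 : 0 < c' := lt_of_lt_of_le (by positivity) (le_max_right _ _)
  have hc'1 : c' < 1 / (4 * Real.log 2) := by
    refine max_lt hc ?_
    refine one_div_lt_one_div_of_lt (by positivity) ?_
    linarith
  obtain ⟨ε, hε, y₁, hy₁⟩ := hCON c' (2 * Real.log (2 ^ 8 * 3 ^ 5) + 4 * Real.log (R a b)) hc'0 hc'1
  obtain ⟨y₂, hy₂⟩ := hPIG ε hε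
  obtain ⟨y, hy⟩ : ∃ y : ℕ, y = y₁ + y₂ + B + 5 + (D a b).natAbs := ⟨_, rfl⟩
  obtain ⟨q₁, q₂, hq₁, hq₂, hne, hyq₁, hyq₂, hX₁, hX₂, hmod, hsq⟩ := hy₂ y (by omega)
  have hD : D a b ≠ 0 := hab.1
  have hn₁ : ¬ (q₁ : ℤ) ∣ D a b := FIN_notdvd hD (by omega)
  have hn₂ : ¬ (q₂ : ℤ) ∣ D a b := FIN_notdvd hD (by omega)
  obtain ⟨hM, hDd, hRd⟩ := hMDL a b hab q₁ q₂ hq₁ hq₂ hne (by omega) (by omega) hn₁ hn₂
  have hgood : ∀ p : ℕ, p.Prime → ¬ (p : ℤ) ∣ D a b → ¬ p ∣ q₁ * q₂ →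
      ¬ (p : ℤ) ∣ D (a * (q₁ * q₂ : ℕ) ^ 2) (b * (q₁ * q₂ : ℕ) ^ 3) := by
    intro p hp h1 h2 h3
    rw [hDd] at h3
    rcases (Nat.prime_iff_prime_int.1 hp).dvd_or_dvd h3 with h | h
    · have := (Nat.prime_iff_prime_int.1 hp).dvd_of_dvd_pow h
      exact h2 (by exact_mod_cast this)
    · exact h1 h
  refine ⟨q₁ * q₂, ?_, FIN_mod hq₁ (by omega) hmod, hM, ?_, ?_⟩
  · have : q₁ * 1 ≤ q₁ * q₂ := Nat.mul_le_mul_left _ hq₂.one_lt.le
    omega
  · obtain ⟨p, hp, h5, h4, hpD, hpq, hs, hns⟩ := hQRP (D a b) q₁ q₂ hD hq₁ hq₂ hne (by omega)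
      (by omega) hn₂
    have : Fact p.Prime := ⟨hp⟩
    refine ⟨p, hp, h5, hpD, hgood p hp hpD hpq, ?_⟩
    rw [FIN_pts, FIN_pts]
    obtain ⟨δ, hδ⟩ := hs
    have hDp : ((D a b : ℤ) : ZMod p) ≠ 0 := by
      rw [Ne, ZMod.intCast_zmod_eq_zero_iff_dvd]
      exact hpD
    have hδ0 : δ ≠ 0 := by
      rintro rfl
      apply hDp
      have : -((D a b : ℤ) : ZMod p) = 0 := by
        rw [← Int.cast_neg, hδ]; ring
      exact neg_eq_zero.1 this
    have h1 := hNZ p h5 h4 (a : ZMod p) (b : ZMod p) δ hδ0 (by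
      rw [pow_two δ, ← hδ]
      simp only [D]
      push_cast
      ring)
    have h2 := hTWN p h5 (a : ZMod p) (b : ZMod p) ((q₁ * q₂ : ℕ) : ZMod p) hns
    intro h3
    have h4' : aff (((a * (q₁ * q₂ : ℕ) ^ 2 : ℤ)) : ZMod p) (((b * (q₁ * q₂ : ℕ) ^ 3 : ℤ)) : ZMod p) =
        aff ((a : ZMod p) * ((q₁ * q₂ : ℕ) : ZMod p) ^ 2)
          ((b : ZMod p) * ((q₁ * q₂ : ℕ) : ZMod p) ^ 3) := by
      push_cast
      rfl
    rw [h4'] at h3
    omega
  · intro p hp h5 hple hpD hpD'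
    have : Fact p.Prime := ⟨hp⟩
    have hR1 : (1 : ℝ) ≤ (R a b : ℝ) := by exact_mod_cast FIN_Rpos a b
    have hq₁1 : (1 : ℝ) ≤ (q₁ : ℝ) := by exact_mod_cast hq₁.one_lt.le
    have hq₂1 : (1 : ℝ) ≤ (q₂ : ℝ) := by exact_mod_cast hq₂.one_lt.le
    have hprod : ((M a b : ℝ) * M (a * (q₁ * q₂ : ℕ) ^ 2) (b * (q₁ * q₂ : ℕ) ^ 3)) =
        (2 ^ 8 * 3 ^ 5) ^ 2 * (R a b : ℝ) ^ 4 * (q₁ : ℝ) ^ 2 * (q₂ : ℝ) ^ 2 := by
      unfold M
      rw [hRd]
      push_cast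
      ring
    set L : ℝ := Real.log ((M a b : ℝ) * M (a * (q₁ * q₂ : ℕ) ^ 2) (b * (q₁ * q₂ : ℕ) ^ 3))
      with hL
    have hL1 : L = 2 * Real.log (2 ^ 8 * 3 ^ 5) + 4 * Real.log (R a b) + 2 * Real.log q₁ +
        2 * Real.log q₂ := by
      rw [hL, hprod, Real.log_mul (by positivity) (by positivity),
        Real.log_mul (by positivity) (by positivity), Real.log_mul (by positivity) (by positivity),
        Real.log_pow, Real.log_pow, Real.log_pow, Real.log_pow]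
      push_cast
      ring
    have hlq₁ : Real.log q₁ ≤ (Real.log 2 + ε) * Nat.primeCounting y := by
      rw [Real.log_le_iff_le_exp (by positivity)]
      exact hX₁
    have hlq₂ : Real.log q₂ ≤ (Real.log 2 + ε) * Nat.primeCounting y := by
      rw [Real.log_le_iff_le_exp (by positivity)]
      exact hX₂
    have hLge : 1 ≤ L := by
      have h1 : (1 : ℝ) ≤ 2 * Real.log (2 ^ 8 * 3 ^ 5) := by
        have h2 : Real.log (Real.exp 1) ≤ Real.log (2 ^ 8 * 3 ^ 5) := by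
          refine Real.log_le_log (Real.exp_pos 1) ?_
          have := Real.exp_one_lt_d9
          norm_num
          linarith
        rw [Real.log_exp] at h2
        linarith
      have h3 : 0 ≤ Real.log (R a b) := Real.log_nonneg hR1
      have h4 : 0 ≤ Real.log q₁ := Real.log_nonneg hq₁1
      have h5' : 0 ≤ Real.log q₂ := Real.log_nonneg hq₂1
      rw [hL1]
      linarith
    have hLle : L ≤ 2 * Real.log (2 ^ 8 * 3 ^ 5) + 4 * Real.log (R a b) +
        4 * (Real.log 2 + ε) * Nat.primeCounting y := by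
      rw [hL1]
      linarith
    have hcon := hy₁ y (by omega) L hLge hLle
    have hpy : p ≤ y := by
      have h1 : c * L * Real.log L ≤ c' * L * Real.log L := by
        have h2 : 0 ≤ Real.log L := Real.log_nonneg hLge
        have h3 : c ≤ c' := le_max_left _ _
        gcongr
      have h4 : (p : ℝ) ≤ y := hple.trans (h1.trans hcon)
      exact_mod_cast h4
    have hpq : ¬ p ∣ q₁ * q₂ := by
      intro h
      rcases (Nat.Prime.dvd_mul hp).1 h with h | h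
      · have := (Nat.prime_dvd_prime_iff_eq hp hq₁).1 h
        omega
      · have := (Nat.prime_dvd_prime_iff_eq hp hq₂).1 h
        omega
    obtain ⟨s, hs⟩ := hsq p hp (by omega) hpy
    have hs0 : s ≠ 0 := by
      rintro rfl
      rw [mul_zero, ZMod.natCast_eq_zero_iff] at hs
      exact hpq hs
    have h1 := hTWS p (a : ZMod p) (b : ZMod p) s hs0
    rw [FIN_pts, FIN_pts, ← h1]
    congr 2
    · push_cast
      rw [← Nat.cast_mul, hs]
      ring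
    · push_cast
      rw [← Nat.cast_mul, hs]
      ring

end ESL
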